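import Pool.Agent.Y644.SE.Main

/-!
# Steepest edge is not dominated by the shadow: all dimensions and all small noise levels

Stronger form of `Pool.Agent.Results.MP_42ca66_lc.SteepestEdge`.

* `law Abar cbar σ` is the law of the Gaussian perturbation `(A, c)`, `pathLen A z c` the number of
  steps of the steepest-edge path and `shadowCard A z c` the number of vertices of the shadow
  (definitions in `Pool.Agent.H836R3.SE.Defs`).
* The four parts: (1) the question is answered negatively even for a polynomial factor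
  `α (m, n, 1/σ)`; (2) for polynomially small noise this happens for all `m, n` with
  `min n (m - n) ≥ C (1 + log m)`; (3) for all `m, n` with `2 K + 4 ≤ min n (m - n)` one linear
  program works for every `σ ≤ 1 / (10^10 m n^9)`: more than `2 ^ K` steps are more probable than
  more than `n` shadow vertices by a factor `exp (1 / (36 · 10^16 σ² n^16))`; (4) conversely the
  path never has more than `m ^ min n (m - n)` steps.
-/

open MeasureTheory ProbabilityTheory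

namespace Pool.Agent.Results.MP_42ca66_lc.AllDimensions

open Pool.H836R3.SE

theorem result :
    (∀ α x₀ : MvPolynomial (Fin 3) ℝ,
      ∃ (m n : ℕ) (σ : ℝ) (Abar : Fin m → Fin n → ℝ) (cbar z : Fin n → ℝ) (x : ℕ),
        0 < σ ∧ ∑ i, ∑ j, Abar i j ^ 2 + ∑ j, cbar j ^ 2 ≤ 1 ∧
        MvPolynomial.eval ![(m : ℝ), (n : ℝ), 1 / σ] x₀ < x ∧
        ENNReal.ofReal (MvPolynomial.eval ![(m : ℝ), (n : ℝ), 1 / σ] α) *
            law Abar cbar σ {ω | (x : ℕ∞) < shadowCard ω.1 z ω.2} <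
          law Abar cbar σ {ω | (x : ℕ∞) < pathLen ω.1 z ω.2}) ∧
    (∀ (D : ℕ) (α x₀ : MvPolynomial (Fin 3) ℝ), ∃ C : ℝ, ∀ (m n k : ℕ) (σ : ℝ),
      k ≤ n → n + k ≤ m → C * (1 + Real.log m) ≤ k → 1 / (m:ℝ) ^ D ≤ σ →
      σ ≤ 1 / (10 ^ 10 * m * (n:ℝ) ^ 9) →
      ∃ (Abar : Fin m → Fin n → ℝ) (cbar z : Fin n → ℝ) (x : ℕ),
        ∑ i, ∑ j, Abar i j ^ 2 + ∑ j, cbar j ^ 2 ≤ 1 ∧
        MvPolynomial.eval ![(m : ℝ), (n : ℝ), 1 / σ] x₀ < x ∧
        ENNReal.ofReal (MvPolynomial.eval ![(m : ℝ), (n : ℝ), 1 / σ] α) *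
            law Abar cbar σ {ω | (x : ℕ∞) < shadowCard ω.1 z ω.2} <
          law Abar cbar σ {ω | (x : ℕ∞) < pathLen ω.1 z ω.2}) ∧
    (∀ K m n : ℕ, 1 ≤ K → 2 * K + 4 ≤ n → n + (2 * K + 4) ≤ m →
      ∃ (Abar : Fin m → Fin n → ℝ) (cbar z : Fin n → ℝ),
        ∑ i, ∑ j, Abar i j ^ 2 + ∑ j, cbar j ^ 2 ≤ 1 ∧
        ∀ σ : ℝ, 0 < σ → σ ≤ 1 / (10 ^ 10 * m * (n:ℝ) ^ 9) →
          0 < law Abar cbar σ {ω | ((2 ^ K : ℕ) : ℕ∞) < pathLen ω.1 z ω.2} ∧
          ENNReal.ofReal (Real.exp (1 / (36 * 10 ^ 16 * σ ^ 2 * (n:ℝ) ^ 16))) *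
              law Abar cbar σ {ω | (n : ℕ∞) < shadowCard ω.1 z ω.2} ≤
            law Abar cbar σ {ω | ((2 ^ K : ℕ) : ℕ∞) < pathLen ω.1 z ω.2}) ∧
    (∀ (m n : ℕ) (A : Fin m → Fin n → ℝ) (c z : Fin n → ℝ),
      pathLen A z c ≤ ((m ^ min n (m - n) : ℕ) : ℕ∞)) :=
  ⟨Pool.Y644.SE.main_literal, Pool.Y644.SE.main_poly, Pool.Y644.SE.main_KL,
    fun _ _ A c z => Pool.Y644.SE.pathLen_le A c z⟩

end Pool.Agent.Results.MP_42ca66_lc.AllDimensions
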